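import Pool.Agent.H83.WDelta

set_option autoImplicit false

namespace Pool.Agent.Results.MP_028983_lc.AllCardinals

open Cardinal Pool.Agent.H83.WDelta

universe u

theorem result : ∀ κ : Cardinal.{u}, ℵ₀ ≤ κ → Delta κ := both.1

end Pool.Agent.Results.MP_028983_lc.AllCardinals
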